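import Pool.Agent.Y34.HB.Stm3
import Pool.Agent.Y34.HB.Basic
import Pool.Agent.Y363.HB.KEY

set_option autoImplicit false

/-!
Job HQ-K1 of helper34: the boundary of the region where two flats are close, seen from deep inside.
-/

universe u v

open Metric Set Filter Topology
open Pool.Agent.TH60.FP

namespace Pool.Agent.Y487.HB

open Pool.Agent.Y34.HB
open Pool.Agent.Y363.HB (lip)

theorem t : S_K1.{u, v} := by
  intro X _ G _ _ geo k L fam u hu hyp M0 hM0 M hM
  by_contra hcon
  push Not at hcon
  haveI := geo.proper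
  haveI := geo.isom
  obtain ⟨K, hK, hKc⟩ := geo.cc
  choose f hfL h hhL c z hz1 hz3 hz2 hin using fun n : ℕ => hcon ((n : ℝ) + 1) (1 / ((n : ℝ) + 1))
    (by positivity) (by positivity)
  have hfi : ∀ n, Isometry (f n) := fun n => fam.isom _ (hfL n)
  have hhi : ∀ n, Isometry (h n) := fun n => fam.isom _ (hhL n)
  have hr1 : ∀ n, 1 ≤ ‖c n - z n‖ := fun n => by
    have h1 := hz3 n
    have h2 : (0 : ℝ) ≤ n := Nat.cast_nonneg n
    linarith
  have hzpos : ∀ n, 0 < ‖c n - z n‖ := fun n => lt_of_lt_of_le one_pos (hr1 n)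
  have hz4 : ∀ n, infDist (f n (z n)) (range (h n)) < M + 1 := by
    intro n
    have h3 := hzpos n
    set z' : E k := z n + (1 / ‖c n - z n‖) • (c n - z n) with hz'
    have h5 : ‖z' - c n‖ < ‖z n - c n‖ := by
      have e1 : z' - c n = -((1 - 1 / ‖c n - z n‖) • (c n - z n)) := by
        rw [hz']
        module
      rw [e1, norm_neg, norm_smul, Real.norm_eq_abs, abs_of_nonneg, norm_sub_rev (z n) (c n)]
      · have : 0 < 1 / ‖c n - z n‖ := by positivity
        nlinarith
      · have : 1 / ‖c n - z n‖ ≤ 1 := by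
          rw [div_le_one h3]; exact hr1 n
        linarith
    have h6 : ‖z n - z'‖ = 1 := by
      have : z n - z' = -((1 / ‖c n - z n‖) • (c n - z n)) := by
        rw [hz']
        module
      rw [this, norm_neg, norm_smul, Real.norm_eq_abs, abs_of_pos (by positivity)]
      field_simp
    have h7 := lip (hfi n) (range (h n)) (z n) z'
    have h8 := hz2 n z' h5
    linarith
  have hw : ∀ n, ∃ w : E k, dist (f n (z n)) (h n w) < M + 1 := by
    intro n
    obtain ⟨y, ⟨w, rfl⟩, hy⟩ := (infDist_lt_iff (range_nonempty (h n))).1 (hz4 n)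
    exact ⟨w, hy⟩
  choose w hw using hw
  choose γ hγ using hKc
  set g : ℕ → G := fun n => γ (f n (z n)) with hg
  set F : ℕ → E k → X := fun n v => g n • f n (z n + v) with hF
  set H : ℕ → E k → X := fun n v => g n • h n (w n + v) with hH
  have hFL : ∀ n, F n ∈ L := fun n => fam.smul _ (fam.trans _ (hfL _) (z n)) (g n)
  have hHL : ∀ n, H n ∈ L := fun n => fam.smul _ (fam.trans _ (hhL _) (w n)) (g n)
  have hFi : ∀ n, Isometry (F n) := fun n => fam.isom _ (hFL n)
  have hHi : ∀ n, Isometry (H n) := fun n => fam.isom _ (hHL n)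
  have hF0 : ∀ n, F n 0 ∈ K := by
    intro n
    simp only [hF, add_zero]
    exact hγ _
  have hFH0 : ∀ n, dist (F n 0) (H n 0) < M + 1 := by
    intro n
    simp only [hF, hH, add_zero, dist_smul]
    exact hw n
  -- the distance function
  have hD : ∀ n v, infDist (F n v) (range (H n)) = infDist (f n (z n + v)) (range (h n)) := by
    intro n v
    have h3 : range (H n) = (fun x => g n • x) '' range (h n) := by
      ext y
      constructor
      · rintro ⟨a, rfl⟩
        exact ⟨_, mem_range_self (w n + a), rfl⟩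
      · rintro ⟨_, ⟨a, rfl⟩, rfl⟩
        refine ⟨a - w n, ?_⟩
        simp only [hH]
        congr 2
        abel
    rw [h3]
    exact infDist_image (isometry_smul X (g n))
  have hM2p : 0 ≤ M + 1 := le_trans dist_nonneg (hFH0 0).le
  obtain ⟨F', hF'i, hF't, hF'u⟩ := t_lim X k K hK F hFi hF0
  obtain ⟨H', hH'i, hH't, hH'u⟩ := t_lim X k (cthickening (M + 1) K) hK.cthickening H hHi (by
    intro n
    refine mem_cthickening_of_dist_le _ (F n 0) _ _ (hF0 n) ?_
    rw [dist_comm]
    exact (hFH0 n).le)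
  have hF'L : F' ∈ L := fam.closed.mem_of_tendsto hF't (Eventually.of_forall hFL)
  have hH'L : H' ∈ L := fam.closed.mem_of_tendsto hH't (Eventually.of_forall hHL)
  -- the directions
  set uu : ℕ → E k := fun n => ‖c n - z n‖⁻¹ • (c n - z n) with huu
  have huu1 : ∀ n, uu n ∈ sphere (0 : E k) 1 := by
    intro n
    have h3 := hzpos n
    rw [mem_sphere_zero_iff_norm, huu, norm_smul, norm_inv, norm_norm]
    field_simp
  obtain ⟨a, ha1, ha2⟩ := (isCompact_sphere (0 : E k) 1).ultrafilter_le_nhds
    ((hyperfilter ℕ).map uu) (by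
      rw [Ultrafilter.coe_map, le_principal_iff, mem_map]
      exact univ_mem' huu1)
  have hut : Tendsto uu (hyperfilter ℕ : Filter ℕ) (𝓝 a) := ha2
  have han : ‖a‖ = 1 := mem_sphere_zero_iff_norm.1 ha1
  have hhyp : (hyperfilter ℕ : Filter ℕ) ≤ atTop := by
    rw [← Nat.cofinite_eq_atTop]
    exact hyperfilter_le_cofinite
  have hnorm : Tendsto (fun n => ‖c n - z n‖) (hyperfilter ℕ : Filter ℕ) atTop := by
    refine Tendsto.mono_left ?_ hhyp
    refine tendsto_atTop_mono (fun n => ?_) tendsto_natCast_atTop_atTop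
    have h3 := hz3 n
    linarith
  -- the limit direction
  have hau : inner ℝ a u ≤ 0 := by
    have h3 : Tendsto (fun n => inner ℝ (uu n) u) (hyperfilter ℕ : Filter ℕ) (𝓝 (inner ℝ a u)) :=
      hut.inner tendsto_const_nhds
    have h4 : Tendsto (fun n : ℕ => 1 / ((n : ℝ) + 1)) (hyperfilter ℕ : Filter ℕ) (𝓝 0) :=
      tendsto_one_div_add_atTop_nhds_zero_nat.mono_left hhyp
    refine le_of_tendsto_of_tendsto h3 h4 (Eventually.of_forall fun n => ?_)
    have h5 := hzpos n
    have h6 := hin n
    simp only [huu]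
    rw [real_inner_smul_left, inv_mul_le_iff₀ h5]
    linarith
  -- the open half space
  have hopen : ∀ v : E k, 0 < inner ℝ a v → infDist (F' v) (range H') ≤ M := by
    intro v hv
    refine le_of_forall_pos_le_add fun ε hε => ?_
    have e1 : ∀ᶠ n in (hyperfilter ℕ : Filter ℕ), inner ℝ a v / 2 < inner ℝ (uu n) v := by
      have h3 : Tendsto (fun n => inner ℝ (uu n) v) (hyperfilter ℕ : Filter ℕ) (𝓝 (inner ℝ a v)) :=
        hut.inner tendsto_const_nhds
      exact h3.eventually (lt_mem_nhds (by linarith))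
    have e2 := hnorm.eventually_ge_atTop (‖v‖ ^ 2 / inner ℝ a v)
    have e3 := hF'u ‖v‖ (ε / 2) (by linarith)
    have e4 := hH'u (2 * M + 1 + ‖v‖) (ε / 2) (by linarith)
    obtain ⟨n, n1, n2, n3, n4⟩ := (e1.and (e2.and (e3.and e4))).exists
    have hlt : ‖z n + v - c n‖ < ‖z n - c n‖ := by
      have h3 := hzpos n
      have h4 : inner ℝ (uu n) v = ‖c n - z n‖⁻¹ * inner ℝ (c n - z n) v := by
        rw [huu, real_inner_smul_left]
      have h5 : inner ℝ (c n - z n) v = ‖c n - z n‖ * inner ℝ (uu n) v := by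
        rw [h4]
        field_simp
      have h6 := norm_sub_sq_real (c n - z n) v
      rw [div_le_iff₀ hv] at n2
      have h7 : ‖c n - z n‖ * (inner ℝ a v / 2) < ‖c n - z n‖ * inner ℝ (uu n) v :=
        mul_lt_mul_of_pos_left n1 h3
      have h8 : ‖c n - z n - v‖ ^ 2 < ‖c n - z n‖ ^ 2 := by
        rw [h6, h5]
        linarith
      have h9 : z n + v - c n = -(c n - z n - v) := by abel
      rw [h9, norm_neg, norm_sub_rev (z n) (c n)]
      exact lt_of_pow_lt_pow_left₀ 2 (norm_nonneg _) h8
    have h3 := hz2 n _ hlt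
    rw [← hD n v] at h3
    obtain ⟨y, ⟨b, rfl⟩, hy⟩ := (infDist_lt_iff (range_nonempty (H n))).1 h3
    have hb : ‖b‖ ≤ 2 * M + 1 + ‖v‖ := by
      have h4 : dist (H n b) (H n 0) = ‖b‖ := by
        rw [(hHi n).dist_eq, dist_zero_right]
      have h5 : dist (F n v) (F n 0) = ‖v‖ := by
        rw [(hFi n).dist_eq, dist_zero_right]
      have h6 := hFH0 n
      have h7 := dist_triangle4 (H n b) (F n v) (F n 0) (H n 0)
      rw [dist_comm (H n b) (F n v)] at h7
      linarith
    have h4 := n3 v le_rfl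
    have h5 := n4 b hb
    have h6 := infDist_le_dist_of_mem (x := F' v) (mem_range_self (f := H') b)
    have h7 := dist_triangle4 (F' v) (F n v) (H n b) (H' b)
    rw [dist_comm (F' v) (F n v)] at h7
    linarith
  -- the closed half space
  have hhalf : NearHalf F' H' a := by
    refine ⟨M + 1, fun v hv => ?_⟩
    have h3 : 0 < inner ℝ a (v + a) := by
      rw [inner_add_right, real_inner_self_eq_norm_sq, han]
      linarith
    have h4 := hopen (v + a) h3
    have h5 := lip hF'i (range H') v (v + a)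
    have h6 : ‖v - (v + a)‖ = 1 := by
      rw [show v - (v + a) = -a by abel, norm_neg, han]
    linarith
  have hN : Near F' H' := hyp F' hF'L H' hH'L a han hau hhalf
  have hle := hM0 F' hF'L H' hH'L hN
  -- the distance at the origin
  have hge : M ≤ infDist (F' 0) (range H') := by
    rw [le_infDist (range_nonempty H')]
    rintro y ⟨b, rfl⟩
    have h3 : Tendsto (fun n => dist (F n 0) (H n b)) (hyperfilter ℕ : Filter ℕ)
        (𝓝 (dist (F' 0) (H' b))) :=
      (tendsto_pi_nhds.1 hF't 0).dist (tendsto_pi_nhds.1 hH't b)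
    refine ge_of_tendsto h3 (Eventually.of_forall fun n => ?_)
    have h4 := hz1 n
    have h5 := hD n 0
    rw [add_zero] at h5
    rw [← h5] at h4
    exact h4.trans (infDist_le_dist_of_mem (mem_range_self b))
  linarith

end Pool.Agent.Y487.HB
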